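import Pool.Agent.H80.AN.TargetsA

/-! Facts on the energy measure, all dimensions (row MUF of allh). -/

namespace Pool.Agent.H95.AN

open MeasureTheory Metric Set Filter Topology Pool.Agent.H87.SN Pool.Agent.H87.SH Pool.Agent.H87.AX
open Pool.Agent.H22.AN
open scoped ContDiff RealInnerProductSpace ENNReal

noncomputable section

theorem muf_nsq_nonneg {n m : ℕ} (L : E n →L[ℝ] E m) : 0 ≤ nsq L :=
  Finset.sum_nonneg fun _ _ => sq_nonneg _

theorem muf_nsq_cont {n m : ℕ} : Continuous (fun T : E n →L[ℝ] E m => nsq T) := by
  unfold nsq
  fun_prop

theorem muf_nsq_int {n m : ℕ} {G : E n → E n →L[ℝ] E m} {μ : Measure (E n)}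
    (hG : MemLp G 2 μ) : Integrable (fun x => nsq (G x)) μ := by
  unfold nsq
  refine integrable_finsetSum _ fun i _ => ?_
  have h1 : MemLp (fun x => G x (bv i)) 2 μ := by
    refine MemLp.of_le_mul (c := 1) hG ?_ ?_
    · exact (ContinuousLinearMap.apply ℝ (E m) (bv i)).continuous.comp_aestronglyMeasurable
        hG.aestronglyMeasurable
    · refine Eventually.of_forall fun x => ?_
      have h := (G x).le_opNorm (bv i)
      have hb : ‖(bv i : E n)‖ = 1 := by
        unfold bv
        simp
      rw [hb, mul_one] at h
      simpa using h
  exact h1.integrable_norm_pow (by norm_num)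

theorem pf_MUF : T_MUF := by
  intro d m G hG
  have hint : Integrable (fun x => nsq (G x)) (volume.restrict (ball (0 : V d) 2)) :=
    muf_nsq_int hG
  have haem : AEMeasurable (fun x => nsq (G x)) (volume.restrict (ball (0 : V d) 2)) :=
    hint.aestronglyMeasurable.aemeasurable
  have haem' : AEMeasurable (fun x => ENNReal.ofReal (nsq (G x)))
      (volume.restrict (ball (0 : V d) 2)) := haem.ennreal_ofReal
  have hfin : mu G univ ≠ ⊤ := by
    unfold mu
    rw [withDensity_apply _ MeasurableSet.univ, Measure.restrict_univ]
    have := hint.lintegral_lt_top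
    exact this.ne
  have hac : mu G ≪ volume.restrict (ball (0 : V d) 2) := withDensity_absolutelyContinuous _ _
  have h3 : ∀ f : V d → ℝ≥0∞, Measurable f → ∀ S : Set (V d), MeasurableSet S →
      ∫⁻ x in S, f x ∂(mu G) =
        ∫⁻ x in S ∩ ball (0 : V d) 2, ENNReal.ofReal (nsq (G x)) * f x := by
    intro f hf S hS
    unfold mu
    rw [restrict_withDensity hS, Measure.restrict_restrict hS,
      lintegral_withDensity_eq_lintegral_mul₀ _ hf.aemeasurable]
    · rfl
    · rw [← Measure.restrict_restrict hS]
      exact haem'.restrict
  have h4 : ∀ S : Set (V d), MeasurableSet S → S ⊆ ball 0 2 →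
      IntegrableOn (fun x => nsq (G x)) S ∧ (mu G).real S = ∫ x in S, nsq (G x) := by
    intro S hS hSb
    have hi : IntegrableOn (fun x => nsq (G x)) S := by
      have : IntegrableOn (fun x => nsq (G x)) (ball (0 : V d) 2) := hint
      exact this.mono_set hSb
    refine ⟨hi, ?_⟩
    have e1 : mu G S = ∫⁻ x in S, ENNReal.ofReal (nsq (G x)) := by
      have := h3 (fun _ => 1) measurable_const S hS
      rw [lintegral_const, one_mul, Measure.restrict_apply MeasurableSet.univ, univ_inter,
        inter_eq_self_of_subset_left hSb] at this
      simpa using this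
    rw [Measure.real, e1, ← ofReal_integral_eq_lintegral_ofReal hi
      (Eventually.of_forall fun x => muf_nsq_nonneg _)]
    exact ENNReal.toReal_ofReal (integral_nonneg fun x => muf_nsq_nonneg _)
  refine ⟨hfin, hac, h3, h4, ?_, ?_⟩
  · intro f S B hf hS hSb hfB
    have hi : IntegrableOn (fun x => f x * nsq (G x)) S := by
      refine Integrable.bdd_mul (c := B) (h4 S hS hSb).1 hf.aestronglyMeasurable ?_
      filter_upwards [ae_restrict_mem hS] with x hx
      rw [Real.norm_of_nonneg (hfB x hx).1]
      exact (hfB x hx).2
    refine ⟨hi, ?_⟩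
    rw [h3 _ hf.ennreal_ofReal S hS, inter_eq_self_of_subset_left hSb,
      ofReal_integral_eq_lintegral_ofReal hi]
    · refine setLIntegral_congr_fun hS fun x hx => ?_
      show ENNReal.ofReal (nsq (G x)) * ENNReal.ofReal (f x) = ENNReal.ofReal (f x * nsq (G x))
      rw [ENNReal.ofReal_mul (hfB x hx).1, mul_comm]
    · filter_upwards [ae_restrict_mem hS] with x hx
      exact mul_nonneg (hfB x hx).1 (muf_nsq_nonneg _)
  · intro r
    have : IsFiniteMeasure (mu G) := ⟨lt_top_iff_ne_top.2 hfin⟩
    have hsph : ∀ x : V d, mu G (sphere x r) = 0 := by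
      intro x
      by_cases hr : r = 0
      · rw [hr, sphere_zero]
        refine hac ?_
        rw [Measure.restrict_apply (measurableSet_singleton x)]
        exact measure_mono_null inter_subset_left (measure_singleton x)
      · refine hac ?_
        refine Measure.restrict_le_self.absolutelyContinuous ?_
        exact Measure.addHaar_sphere_of_ne_zero volume x hr
    rw [continuous_iff_continuousAt]
    intro x
    have e : ∀ y : V d, (mu G).real (ball y r) = ∫ z, (ball y r).indicator (fun _ => (1 : ℝ)) z ∂(mu G) := by
      intro y
      rw [integral_indicator measurableSet_ball, setIntegral_const, smul_eq_mul, mul_one]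
    have e' : (fun y => (mu G).real (ball y r)) =
        fun y => ∫ z, (ball y r).indicator (fun _ => (1 : ℝ)) z ∂(mu G) := funext e
    rw [e']
    refine tendsto_integral_filter_of_dominated_convergence (fun _ => (1 : ℝ)) ?_ ?_ ?_ ?_
    · exact Eventually.of_forall fun y =>
        (measurable_const.indicator measurableSet_ball).aestronglyMeasurable
    · refine Eventually.of_forall fun y => Eventually.of_forall fun z => ?_
      by_cases hz : z ∈ ball y r
      · rw [indicator_of_mem hz]
        simp
      · rw [indicator_of_notMem hz]
        simp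
    · exact integrable_const _
    · have h0 : ∀ᵐ z ∂(mu G), z ∉ sphere x r := by
        rw [ae_iff]
        have e2 : {a | ¬ a ∉ sphere x r} = sphere x r := by
          ext a
          simp only [mem_setOf_eq, not_not]
        rw [e2]
        exact hsph x
      filter_upwards [h0] with z hz
      have hz' : dist z x ≠ r := hz
      rcases lt_or_gt_of_ne hz' with h | h
      · have : ∀ᶠ y in 𝓝 x, dist z y < r :=
          (continuous_const.dist continuous_id).continuousAt.eventually_lt continuousAt_const h
        refine (tendsto_const_nhds (x := (1 : ℝ))).congr' ?_ |>.trans ?_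
        · filter_upwards [this] with y hy
          rw [indicator_of_mem (mem_ball.2 hy)]
        · rw [indicator_of_mem (mem_ball.2 h)]
      · have : ∀ᶠ y in 𝓝 x, r < dist z y :=
          continuousAt_const.eventually_lt (continuous_const.dist continuous_id).continuousAt h
        refine (tendsto_const_nhds (x := (0 : ℝ))).congr' ?_ |>.trans ?_
        · filter_upwards [this] with y hy
          rw [indicator_of_notMem]
          exact fun h' => absurd (mem_ball.1 h') (not_lt.2 hy.le)
        · rw [indicator_of_notMem]
          exact fun h' => absurd (mem_ball.1 h') (not_lt.2 h.le)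

end

end Pool.Agent.H95.AN
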